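import Pool.Agent.Lib.MP_8b4fe7_lc.Poly

/-!
# The realizability problem for rotation systems on cubic graphs is in P

The proof rests on the exact criterion of
`Pool.Agent.Results.MP_8b4fe7_lc.ParityCriterion.result`.
-/

namespace Pool.Agent.Results.MP_8b4fe7_lc.InP

open Pool.Agent.Lib.MP_8b4fe7_lc

/-- Deciding whether a given cubic graph with a given rotation system has a straight-line drawing
which realizes the rotation system can be done by a Turing machine in polynomial time. -/
theorem result : cubicRealizability ∈ N68a2faeb.P :=
  cubicRealizability_mem_P

end Pool.Agent.Results.MP_8b4fe7_lc.InP
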