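import Pool.Agent.Lib.MP_8b4fe7_lc.Char

/-!
# Realizability of rotation systems on cubic graphs

A rotation system on a finite cubic graph is realized by a straight-line drawing (edges may
cross) if and only if it satisfies a parity condition at every complete graph on four vertices
contained in the graph.
-/

namespace Pool.Agent.Results.MP_8b4fe7_lc.ParityCriterion

open Pool.Agent.Lib.MP_8b4fe7_lc

universe u

/-- Let `G` be a finite simple graph in which every vertex has exactly three neighbours. A rotation
system `π` on `G` is realized by some straight-line drawing of `G` if and only if it satisfies the
parity condition `EvenK4` at each complete graph on four vertices in `G`. -/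
theorem result {V : Type u} [Finite V] (G : SimpleGraph V)
    (hcubic : ∀ v : V, (G.neighborSet v).ncard = 3) (π : RotationSystem G) :
    Realizable π ↔ EvenK4 π :=
  char hcubic π

end Pool.Agent.Results.MP_8b4fe7_lc.ParityCriterion
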